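import Mathlib

/-!
Ladder systems on non-reflecting stationary sets, for MP_1c9258_gt and MP_ba6bfd_gt.
-/

open Cardinal Order Set

namespace Pool.Agent.R634.NR

set_option linter.unusedSectionVars false
set_option linter.unusedVariables false

variable {K : Type} [LinearOrder K] [WellFoundedLT K]

/-- `S` meets the set of closure points of every function. -/
def IsStat (S : Set K) : Prop :=
  ∀ G : K → K, ∃ δ ∈ S, ∀ β < δ, G β < δ

/-- every family of fewer than `κ` elements is strictly bounded -/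
def Bdd (K : Type) [LinearOrder K] (κ : Cardinal.{0}) : Prop :=
  ∀ s : Set K, #s < κ → ∃ β, ∀ x ∈ s, x < β

lemma isClub_closure {κ : Cardinal.{0}} (hκ : ℵ₀ < κ) (hb : Bdd K κ)
    (hsmall : ∀ x : K, #(Iic x) < κ) (G : K → K) :
    IsClub {δ : K | ∀ β < δ, G β < δ} := by
  refine ⟨?_, ?_⟩
  · intro D hD hne _ δ hδ β hβ
    obtain ⟨d, hd, hβd⟩ := (lt_isLUB_iff hδ).1 hβ
    exact lt_of_lt_of_le (hD hd β hβd) (hδ.1 hd)
  · intro a
    have h1 : ∀ β : K, ∃ γ, β < γ ∧ ∀ α ≤ β, G α < γ := by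
      intro β
      have h2 : #(↥(G '' Iic β ∪ {β})) < κ := by
        refine lt_of_le_of_lt (mk_union_le _ _) ?_
        refine add_lt_of_lt hκ.le (lt_of_le_of_lt mk_image_le (hsmall β)) ?_
        rw [mk_singleton]
        exact one_lt_aleph0.trans hκ
      obtain ⟨γ, hγ⟩ := hb _ h2
      exact ⟨γ, hγ β (Or.inr rfl), fun α hα => hγ _ (Or.inl ⟨α, hα, rfl⟩)⟩
    choose H hH1 hH2 using h1
    let η : ℕ → K := fun n => Nat.rec (H a) (fun _ x => H x) n
    have hs : ∀ n, η (n + 1) = H (η n) := fun n => rfl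
    have hmono : StrictMono η := strictMono_nat_of_lt_succ fun n => by rw [hs]; exact hH1 _
    have hbd : #(range η) < κ := lt_of_le_of_lt mk_range_le (by rw [mk_nat]; exact hκ)
    obtain ⟨b, hb'⟩ := hb _ hbd
    have hne : (upperBounds (range η)).Nonempty := ⟨b, fun x hx => (hb' x hx).le⟩
    set δ := wellFounded_lt.min (upperBounds (range η)) hne with hδ
    have hlub : IsLUB (range η) δ := by
      refine ⟨wellFounded_lt.min_mem _ hne, fun c hc => ?_⟩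
      exact not_lt.1 (wellFounded_lt.not_lt_min _ hc)
    refine ⟨δ, ?_, ?_⟩
    · intro β hβ
      obtain ⟨_, ⟨n, rfl⟩, hn⟩ := (lt_isLUB_iff hlub).1 hβ
      exact lt_of_lt_of_le (hH2 (η n) β hn.le) (hlub.1 ⟨n + 1, rfl⟩)
    · exact (hH1 a).le.trans (hlub.1 ⟨0, rfl⟩)

lemma IsStat.of_isStationary {κ : Cardinal.{0}} (hκ : ℵ₀ < κ) (hb : Bdd K κ)
    (hsmall : ∀ x : K, #(Iic x) < κ) {S : Set K} (hS : IsStationary S) : IsStat S := by
  intro G
  obtain ⟨δ, hδS, hδ⟩ := hS (isClub_closure hκ hb hsmall G)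
  exact ⟨δ, hδS, hδ⟩

/-- pressing down -/
lemma IsStat.fodor {κ : Cardinal.{0}} (hκ : ℵ₀ < κ) (hb : Bdd K κ)
    (hsmall : ∀ x : K, #(Iic x) < κ) {S : Set K} (hS : IsStat S) (f : K → K)
    (hf : ∀ δ ∈ S, f δ < δ) : ∃ β, IsStat {δ ∈ S | f δ = β} := by
  by_contra hcon
  push Not at hcon
  have h1 : ∀ β, ∃ G : K → K, ∀ δ ∈ S, f δ = β → ∃ x < δ, δ ≤ G x := by
    intro β
    have h2 := hcon β
    unfold IsStat at h2
    push Not at h2
    obtain ⟨G, hG⟩ := h2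
    exact ⟨G, fun δ hδ hfδ => hG δ ⟨hδ, hfδ⟩⟩
  choose G hG using h1
  have h3 : ∀ x : K, ∃ y, ∀ β ≤ x, ∀ α ≤ x, G β α < y := by
    intro x
    have h4 : #(↥((fun p : K × K => G p.1 p.2) '' (Iic x ×ˢ Iic x))) < κ := by
      refine lt_of_le_of_lt mk_image_le ?_
      have h5 : #(↥(Iic x ×ˢ Iic x)) = #(Iic x) * #(Iic x) := by
        rw [mk_setProd]
      rw [h5]
      exact mul_lt_of_lt hκ.le (hsmall x) (hsmall x)
    obtain ⟨y, hy⟩ := hb _ h4
    exact ⟨y, fun β hβ α hα => hy _ ⟨(β, α), ⟨hβ, hα⟩, rfl⟩⟩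
  choose H hH using h3
  obtain ⟨δ, hδS, hδ⟩ := hS H
  obtain ⟨x, hx, hx'⟩ := hG (f δ) δ hδS rfl
  have h6 := hH (max (f δ) x) (f δ) (le_max_left _ _) x (le_max_right _ _)
  have h7 := hδ _ (max_lt (hf δ hδS) hx)
  exact absurd (h6.trans h7) (not_lt.2 hx')

lemma IsStat.countable {κ : Cardinal.{0}} (hκ : ℵ₀ < κ) (hb : Bdd K κ)
    {S : Set K} (hS : IsStat S) (f : K → ℕ) : ∃ n, IsStat {δ ∈ S | f δ = n} := by
  by_contra hcon
  push Not at hcon
  have h1 : ∀ n, ∃ G : K → K, ∀ δ ∈ S, f δ = n → ∃ x < δ, δ ≤ G x := by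
    intro n
    have h2 := hcon n
    unfold IsStat at h2
    push Not at h2
    obtain ⟨G, hG⟩ := h2
    exact ⟨G, fun δ hδ hfδ => hG δ ⟨hδ, hfδ⟩⟩
  choose G hG using h1
  have h3 : ∀ x : K, ∃ y, ∀ n, G n x < y := by
    intro x
    have h4 : #(range (fun n => G n x)) < κ :=
      lt_of_le_of_lt mk_range_le (by rw [mk_nat]; exact hκ)
    obtain ⟨y, hy⟩ := hb _ h4
    exact ⟨y, fun n => hy _ ⟨n, rfl⟩⟩
  choose H hH using h3
  obtain ⟨δ, hδS, hδ⟩ := hS H
  obtain ⟨x, hx, hx'⟩ := hG (f δ) δ hδS rfl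
  exact absurd ((hH x (f δ)).trans (hδ x hx)) (not_lt.2 hx')

lemma IsStat.unbounded {κ : Cardinal.{0}} (hκ : ℵ₀ < κ) (hb : Bdd K κ)
    {S : Set K} (hS : IsStat S) (hS0 : ∀ δ ∈ S, ∃ x, x < δ) (a : K) : ∃ δ ∈ S, a < δ := by
  obtain ⟨δ, hδ, h⟩ := hS (fun _ => a)
  obtain ⟨x, hx⟩ := hS0 δ hδ
  exact ⟨δ, hδ, h x hx⟩

/-- ladders: strictly increasing cofinal sequences -/
def IsLadder (η : ℕ → K) (δ : K) : Prop :=
  StrictMono η ∧ (∀ n, η n < δ) ∧ ∀ β < δ, ∃ n, β < η n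

lemma exists_ladder {δ : K} (h : Order.cof (Iio δ) = ℵ₀) : ∃ η : ℕ → K, IsLadder η δ := by
  classical
  obtain ⟨s, hs, hsc⟩ := Order.exists_cof_eq (Iio δ)
  rw [h] at hsc
  have hmax : ∀ x : Iio δ, ∃ y : Iio δ, x < y := by
    intro x
    by_contra hcon
    push Not at hcon
    have h1 : Order.cof (Iio δ) = 1 := Order.cof_eq_one_iff.2 ⟨x, hcon⟩
    rw [h] at h1
    exact absurd h1 one_lt_aleph0.ne'
  obtain ⟨e⟩ : Nonempty (ℕ ≃ s) := by
    rw [← Cardinal.eq, mk_nat, hsc]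
  choose u hu using hmax
  let η : ℕ → Iio δ := fun n => Nat.rec (u (e 0).1) (fun n x => u (max x (e (n + 1)).1)) n
  have hsucc : ∀ n, η (n + 1) = u (max (η n) (e (n + 1)).1) := fun n => rfl
  have hmono : StrictMono η := strictMono_nat_of_lt_succ fun n => by
    rw [hsucc]
    exact (le_max_left _ _).trans_lt (hu _)
  have hlt : ∀ n, (e n).1 < η n := by
    intro n
    cases n with
    | zero => exact hu _
    | succ n =>
      rw [hsucc]
      exact (le_max_right _ _).trans_lt (hu _)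
  refine ⟨fun n => (η n).1, fun a b hab => hmono hab, fun n => (η n).2, fun β hβ => ?_⟩
  obtain ⟨y, hy, hβy⟩ := hs ⟨β, hβ⟩
  refine ⟨e.symm ⟨y, hy⟩, ?_⟩
  have h2 := hlt (e.symm ⟨y, hy⟩)
  rw [Equiv.apply_symm_apply] at h2
  exact lt_of_le_of_lt (show β ≤ (y : K) from hβy) h2

lemma IsLadder.finite {η : ℕ → K} {δ : K} (h : IsLadder η δ) {β : K} (hβ : β < δ) :
    {n | η n ≤ β}.Finite := by
  obtain ⟨m, hm⟩ := h.2.2 β hβ
  refine (finite_lt_nat m).subset (fun n hn => ?_)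
  by_contra hcon
  have h1 : η m ≤ η n := h.1.monotone (not_lt.1 hcon)
  exact absurd (lt_of_lt_of_le hm h1) (not_lt.2 hn)

lemma IsLadder.exists_ge {η : ℕ → K} {δ : K} (h : IsLadder η δ) {β : K} (hβ : β < δ) :
    ∃ m, ∀ n ≥ m, β < η n := by
  obtain ⟨m, hm⟩ := h.2.2 β hβ
  exact ⟨m, fun n hn => lt_of_lt_of_le hm (h.1.monotone hn)⟩

/-- tails of the ladders of points of `S` in `(β, γ]` can be made disjoint and above `β` -/
def Disj (S : Set K) (η : K → ℕ → K) (β γ : K) : Prop :=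
  ∃ g : K → ℕ, (∀ δ ∈ S, β < δ → δ ≤ γ → ∀ n ≥ g δ, β < η δ n) ∧
    ∀ δ ∈ S, ∀ δ' ∈ S, β < δ → δ ≤ γ → β < δ' → δ' ≤ γ → δ ≠ δ' →
      ∀ n ≥ g δ, ∀ n' ≥ g δ', η δ n ≠ η δ' n'

/-- the same for the open interval -/
def Disj' (S : Set K) (η : K → ℕ → K) (β γ : K) : Prop :=
  ∃ g : K → ℕ, (∀ δ ∈ S, β < δ → δ < γ → ∀ n ≥ g δ, β < η δ n) ∧
    ∀ δ ∈ S, ∀ δ' ∈ S, β < δ → δ < γ → β < δ' → δ' < γ → δ ≠ δ' →
      ∀ n ≥ g δ, ∀ n' ≥ g δ', η δ n ≠ η δ' n'

lemma Disj.of_disj' {S : Set K} {η : K → ℕ → K} (hη : ∀ δ ∈ S, IsLadder (η δ) δ) {β γ : K}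
    (h : Disj' S η β γ) : Disj S η β γ := by
  classical
  obtain ⟨g, hg1, hg2⟩ := h
  by_cases hγ : γ ∈ S ∧ β < γ
  · -- for δ ∈ S, δ < γ: avoid the ladder of γ
    have h1 : ∀ δ : K, δ ∈ S → δ < γ → ∃ m, ∀ n ≥ m, ∀ k, η δ n ≠ η γ k := by
      intro δ hδ hδγ
      have hfin : {k | η γ k ≤ δ}.Finite := (hη γ hγ.1).finite hδγ
      have h2 : ∀ k, ∃ m, ∀ n ≥ m, η δ n ≠ η γ k := by
        intro k
        by_cases hk : η γ k < δ
        · obtain ⟨m, hm⟩ := (hη δ hδ).exists_ge hk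
          exact ⟨m, fun n hn => (hm n hn).ne'⟩
        · refine ⟨0, fun n _ hcon => hk ?_⟩
          rw [← hcon]
          exact (hη δ hδ).2.1 n
      choose m hm using h2
      refine ⟨hfin.toFinset.sup m, fun n hn k hcon => ?_⟩
      by_cases hk : η γ k ≤ δ
      · have h3 : m k ≤ hfin.toFinset.sup m := Finset.le_sup (by simpa using hk)
        exact hm k n (h3.trans hn) hcon
      · apply hk
        rw [← hcon]
        exact ((hη δ hδ).2.1 n).le
    choose! m hm using h1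
    obtain ⟨mγ, hmγ⟩ := (hη γ hγ.1).exists_ge hγ.2
    refine ⟨fun δ => if δ = γ then mγ else max (g δ) (m δ), ?_, ?_⟩
    · intro δ hδ h1 h2 n hn
      by_cases hδγ : δ = γ
      · subst hδγ
        simp only [if_true] at hn
        exact hmγ n hn
      · simp only [if_neg hδγ] at hn
        exact hg1 δ hδ h1 (lt_of_le_of_ne h2 hδγ) n ((le_max_left _ _).trans hn)
    · intro δ hδ δ' hδ' h1 h2 h3 h4 hne n hn n' hn'
      by_cases hδγ : δ = γ
      · have hδ'γ : δ' ≠ γ := fun h => hne (hδγ.trans h.symm)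
        simp only [if_neg hδ'γ] at hn'
        have h5 := hm δ' hδ' (lt_of_le_of_ne h4 hδ'γ) n' ((le_max_right _ _).trans hn') n
        rw [hδγ]
        exact h5.symm
      · simp only [if_neg hδγ] at hn
        by_cases hδ'γ : δ' = γ
        · rw [hδ'γ]
          exact hm δ hδ (lt_of_le_of_ne h2 hδγ) n ((le_max_right _ _).trans hn) n'
        · simp only [if_neg hδ'γ] at hn'
          exact hg2 δ hδ δ' hδ' h1 (lt_of_le_of_ne h2 hδγ) h3 (lt_of_le_of_ne h4 hδ'γ) hne n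
            ((le_max_left _ _).trans hn) n' ((le_max_left _ _).trans hn')
  · refine ⟨g, ?_, ?_⟩
    · intro δ hδ h1 h2 n hn
      have h3 : δ ≠ γ := fun h => hγ ⟨h ▸ hδ, h ▸ h1⟩
      exact hg1 δ hδ h1 (lt_of_le_of_ne h2 h3) n hn
    · intro δ hδ δ' hδ' h1 h2 h3 h4 hne n hn n' hn'
      have h5 : δ ≠ γ := fun h => hγ ⟨h ▸ hδ, h ▸ h1⟩
      have h6 : δ' ≠ γ := fun h => hγ ⟨h ▸ hδ', h ▸ h3⟩
      exact hg2 δ hδ δ' hδ' h1 (lt_of_le_of_ne h2 h5) h3 (lt_of_le_of_ne h4 h6) hne n hn n' hn'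

/-- a closed unbounded subset of `γ` avoiding `S` -/
def HasClub (S : Set K) (γ : K) : Prop :=
  ∃ C : Set K, (∀ c ∈ C, c < γ) ∧ (∀ x < γ, ∃ c ∈ C, x < c) ∧ (∀ c ∈ C, c ∉ S) ∧
    ∀ δ < γ, (∃ x, x < δ) → (∀ x < δ, ∃ c ∈ C, x < c ∧ c < δ) → δ ∈ C

lemma disj_all {S : Set K} {η : K → ℕ → K} (hη : ∀ δ ∈ S, IsLadder (η δ) δ)
    (hS : ∀ γ : K, (∃ x, x < γ) → (∀ x < γ, ∃ y, x < y ∧ y < γ) → HasClub S γ) :
    ∀ γ β : K, β < γ → Disj S η β γ := by
  classical
  intro γ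
  induction γ using WellFoundedLT.induction with
  | ind γ ih =>
    intro β hβγ
    apply Disj.of_disj' hη
    by_cases hlim : ∀ x < γ, ∃ y, x < y ∧ y < γ
    · -- limit case
      obtain ⟨C, hC1, hC2, hC3, hC4⟩ := hS γ ⟨β, hβγ⟩ hlim
      -- block bottoms
      have hbne : ∀ c : K, β ≤ c → {x : K | β ≤ x ∧ ∀ c' ∈ C, c' < c → c' ≤ x}.Nonempty :=
        fun c hc => ⟨c, hc, fun c' _ h => h.le⟩
      let b : K → K := fun c => if h : β ≤ c then wellFounded_lt.min _ (hbne c h) else β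
      have hb1 : ∀ c, β ≤ c → β ≤ b c ∧ ∀ c' ∈ C, c' < c → c' ≤ b c := by
        intro c hc
        have := wellFounded_lt.min_mem _ (hbne c hc)
        simp only [b, dif_pos hc]
        exact this
      have hb2 : ∀ c, β ≤ c → ∀ x, β ≤ x → (∀ c' ∈ C, c' < c → c' ≤ x) → b c ≤ x := by
        intro c hc x hx hx'
        simp only [b, dif_pos hc]
        have hmem : x ∈ {x : K | β ≤ x ∧ ∀ c' ∈ C, c' < c → c' ≤ x} := ⟨hx, hx'⟩
        exact not_lt.1 (wellFounded_lt.not_lt_min _ hmem)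
      -- tops
      have htne : ∀ δ : K, δ < γ → {c ∈ C | δ < c}.Nonempty := by
        intro δ hδ
        obtain ⟨c, hc, h⟩ := hC2 δ hδ
        exact ⟨c, hc, h⟩
      let t : K → K := fun δ => if h : δ < γ then wellFounded_lt.min _ (htne δ h) else δ
      have ht1 : ∀ δ, δ < γ → t δ ∈ C ∧ δ < t δ := by
        intro δ hδ
        have := wellFounded_lt.min_mem _ (htne δ hδ)
        simp only [t, dif_pos hδ]
        exact this
      have ht2 : ∀ δ, δ < γ → ∀ c ∈ C, δ < c → t δ ≤ c := by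
        intro δ hδ c hc hc'
        simp only [t, dif_pos hδ]
        have hmem : c ∈ {c ∈ C | δ < c} := ⟨hc, hc'⟩
        exact not_lt.1 (wellFounded_lt.not_lt_min _ hmem)
      -- the bottom of the block is below δ
      have hbt : ∀ δ ∈ S, β < δ → δ < γ → b (t δ) < δ := by
        intro δ hδ h1 h2
        obtain ⟨h3, h4⟩ := ht1 δ h2
        have h5 : ∀ c' ∈ C, c' < t δ → c' ≤ δ := by
          intro c' hc' hlt
          by_contra hcon
          exact absurd (ht2 δ h2 c' hc' (not_le.1 hcon)) (not_le.2 hlt)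
        have h6 : b (t δ) ≤ δ := hb2 _ (h1.le.trans h4.le) δ h1.le h5
        refine lt_of_le_of_ne h6 (fun heq => ?_)
        have h7 : δ ∈ C := by
          refine hC4 δ h2 ⟨β, h1⟩ (fun x hx => ?_)
          by_contra hcon
          push Not at hcon
          have h8 : b (t δ) ≤ max β x := by
            refine hb2 _ (h1.le.trans h4.le) _ (le_max_left _ _) (fun c' hc' hlt => ?_)
            have h9 := h5 c' hc' hlt
            have h10 : c' ≠ δ := fun h => hC3 c' hc' (h ▸ hδ)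
            have h11 : c' < δ := lt_of_le_of_ne h9 h10
            by_contra h12
            rw [not_le, max_lt_iff] at h12
            exact absurd (hcon c' hc' h12.2) (not_le.2 h11)
          rw [heq] at h8
          exact absurd h8 (not_le.2 (max_lt h1 hx))
        exact hC3 δ h7 hδ
      -- choose g for blocks
      have hblock : ∀ c ∈ C, b c < c → Disj S η (b c) c := fun c hc h => ih c (hC1 c hc) _ h
      choose! G hG1 hG2 using hblock
      refine ⟨fun δ => G (t δ) δ, ?_, ?_⟩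
      · intro δ hδ h1 h2 n hn
        obtain ⟨h3, h4⟩ := ht1 δ h2
        have h5 := hbt δ hδ h1 h2
        have h6 := hG1 (t δ) h3 (h5.trans h4) δ hδ h5 h4.le n hn
        exact lt_of_le_of_lt (hb1 (t δ) (h1.le.trans h4.le)).1 h6
      · have key : ∀ δ ∈ S, ∀ δ' ∈ S, β < δ → δ < γ → β < δ' → δ' < γ → t δ < t δ' →
            ∀ n ≥ G (t δ) δ, ∀ n' ≥ G (t δ') δ', η δ n ≠ η δ' n' := by
          intro δ hδ δ' hδ' h1 h2 h3 h4 hlt n hn n' hn'
          obtain ⟨h5, h6⟩ := ht1 δ h2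
          obtain ⟨h7, h8⟩ := ht1 δ' h4
          have h9 := hbt δ' hδ' h3 h4
          have h10 := hG1 (t δ') h7 (h9.trans h8) δ' hδ' h9 h8.le n' hn'
          have h11 : t δ ≤ b (t δ') := (hb1 (t δ') (h3.le.trans h8.le)).2 _ h5 hlt
          have h12 : η δ n < t δ := ((hη δ hδ).2.1 n).trans h6
          exact ((h12.trans_le h11).trans h10).ne
        intro δ hδ δ' hδ' h1 h2 h3 h4 hne n hn n' hn'
        rcases lt_trichotomy (t δ) (t δ') with hlt | heq | hgt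
        · exact key δ hδ δ' hδ' h1 h2 h3 h4 hlt n hn n' hn'
        · obtain ⟨h5, h6⟩ := ht1 δ h2
          obtain ⟨h7, h8⟩ := ht1 δ' h4
          have h9 := hbt δ hδ h1 h2
          have h10 := hbt δ' hδ' h3 h4
          simp only at hn hn'
          rw [← heq] at hn' h8 h10
          exact hG2 (t δ) h5 (h9.trans h6) δ hδ δ' hδ' h9 h6.le h10 h8.le hne n hn n' hn'
        · exact (key δ' hδ' δ hδ h3 h4 h1 h2 hgt n' hn' n hn).symm
    · -- successor case
      push Not at hlim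
      obtain ⟨p, hp, hp'⟩ := hlim
      have hle : ∀ δ, δ < γ → δ ≤ p := by
        intro δ hδ
        by_contra hcon
        exact absurd hδ (not_lt.2 (hp' δ (not_le.1 hcon)))
      by_cases hβp : β < p
      · obtain ⟨g, hg1, hg2⟩ := ih p hp β hβp
        exact ⟨g, fun δ hδ h1 h2 => hg1 δ hδ h1 (hle δ h2),
          fun δ hδ δ' hδ' h1 h2 h3 h4 => hg2 δ hδ δ' hδ' h1 (hle δ h2) h3 (hle δ' h4)⟩
      · refine ⟨fun _ => 0, ?_, ?_⟩
        · intro δ hδ h1 h2
          exact absurd (h1.trans_le (hle δ h2)) hβp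
        · intro δ hδ δ' hδ' h1 h2
          exact absurd (h1.trans_le (hle δ h2)) hβp

end Pool.Agent.R634.NR
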