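import Pool.Agent.R634.NR.Comb

/-!
The non-reflecting stationary set hypothesis, for MP_1c9258_gt and MP_ba6bfd_gt.
-/

open Cardinal Order Set

namespace Pool.Agent.R634.NR

/-- `κ` carries a non-reflecting stationary set of points of countable cofinality: `κ` is regular
and there is a stationary set `S` of points of cofinality `ω` (in the well-order `κ`) such that for
each `γ` of uncountable cofinality the set `S ∩ γ` is not stationary in `γ`. -/
def HasNonReflecting (κ : Cardinal.{0}) : Prop :=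
  κ.IsRegular ∧ ∃ S : Set κ.ord.ToType, IsStationary S ∧
    (∀ δ ∈ S, Order.cof (Iio δ) = ℵ₀) ∧
    ∀ γ : κ.ord.ToType, ℵ₀ < Order.cof (Iio γ) →
      ¬ IsStationary (Subtype.val ⁻¹' S : Set (Iio γ))

lemma hasClub_of {K : Type} [LinearOrder K] [WellFoundedLT K] {S : Set K}
    (hS1 : ∀ δ ∈ S, Order.cof (Iio δ) = ℵ₀)
    (hS2 : ∀ γ : K, ℵ₀ < Order.cof (Iio γ) → ¬ IsStationary (Subtype.val ⁻¹' S : Set (Iio γ)))
    (γ : K) (hne : ∃ x, x < γ) (hlim : ∀ x < γ, ∃ y, x < y ∧ y < γ) : HasClub S γ := by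
  classical
  rcases lt_trichotomy (Order.cof (Iio γ)) ℵ₀ with h | h | h
  · exfalso
    have h1 : Order.cof (Iio γ) ≤ 1 := Order.cof_lt_aleph0_iff.1 h
    rcases lt_or_eq_of_le h1 with h2 | h2
    · have h3 : Order.cof (Iio γ) = 0 := Cardinal.lt_one_iff.1 h2
      rw [Order.cof_eq_zero_iff] at h3
      obtain ⟨x, hx⟩ := hne
      exact h3.elim ⟨x, hx⟩
    · obtain ⟨x, hx⟩ := Order.cof_eq_one_iff.1 h2
      obtain ⟨y, hy1, hy2⟩ := hlim x.1 x.2
      exact absurd (hx ⟨y, hy2⟩) (not_le.2 hy1)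
  · obtain ⟨η, hη⟩ := exists_ladder h
    have hsne : ∀ n, {x : K | η n < x}.Nonempty := fun n => ⟨η (n + 1), hη.1 (Nat.lt_succ_self n)⟩
    let s : ℕ → K := fun n => wellFounded_lt.min _ (hsne n)
    have hs1 : ∀ n, η n < s n := fun n => wellFounded_lt.min_mem _ (hsne n)
    have hs2 : ∀ n x, η n < x → s n ≤ x := fun n x hx =>
      not_lt.1 (wellFounded_lt.not_lt_min _ (show x ∈ {x : K | η n < x} from hx))
    have hs3 : ∀ n x, x < s n → x ≤ η n := by
      intro n x hx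
      by_contra hcon
      exact absurd (hs2 n x (not_le.1 hcon)) (not_le.2 hx)
    have hsmono : ∀ m n, m ≤ n → s m ≤ s n := fun m n hmn =>
      hs2 m (s n) (lt_of_le_of_lt (hη.1.monotone hmn) (hs1 n))
    refine ⟨range s, ?_, ?_, ?_, ?_⟩
    · rintro _ ⟨n, rfl⟩
      exact lt_of_le_of_lt (hs2 n _ (hη.1 (Nat.lt_succ_self n))) (hη.2.1 _)
    · intro x hx
      obtain ⟨n, hn⟩ := hη.2.2 x hx
      exact ⟨s n, ⟨n, rfl⟩, hn.trans (hs1 n)⟩
    · rintro _ ⟨n, rfl⟩ hmem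
      have h1 := hS1 _ hmem
      have h2 : Order.cof (Iio (s n)) = 1 :=
        Order.cof_eq_one_iff.2 ⟨⟨η n, hs1 n⟩, fun y => hs3 n y.1 y.2⟩
      rw [h1] at h2
      exact absurd h2 one_lt_aleph0.ne'
    · intro δ hδ hex hcl
      exfalso
      have hfin : {n | s n < δ}.Finite := by
        refine (hη.finite hδ).subset (fun n hn => ?_)
        exact (hs1 n).le.trans (le_of_lt hn)
      obtain ⟨x, hx⟩ := hex
      obtain ⟨_, ⟨n₀, rfl⟩, _, hn₀⟩ := hcl x hx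
      obtain ⟨m, hm, hmax⟩ := hfin.exists_maximal ⟨n₀, hn₀⟩
      obtain ⟨_, ⟨k, rfl⟩, hk1, hk2⟩ := hcl (s m) hm
      have h3 : k ≤ m := by
        by_contra hcon
        have := hmax (show k ∈ {n | s n < δ} from hk2) (not_le.1 hcon).le
        exact hcon this
      exact absurd (hsmono k m h3) (not_le.2 hk1)
  · obtain ⟨t, ht, htd⟩ := not_isStationary_iff.1 (hS2 γ h)
    refine ⟨Subtype.val '' t, ?_, ?_, ?_, ?_⟩
    · rintro _ ⟨c, _, rfl⟩
      exact c.2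
    · intro x hx
      obtain ⟨y, hy1, hy2⟩ := hlim x hx
      obtain ⟨c, hc, hyc⟩ := ht.isCofinal ⟨y, hy2⟩
      exact ⟨c.1, ⟨c, hc, rfl⟩, lt_of_lt_of_le hy1 hyc⟩
    · rintro _ ⟨c, hc, rfl⟩ hmem
      exact (Set.disjoint_left.1 htd) (show c ∈ (Subtype.val ⁻¹' S : Set (Iio γ)) from hmem) hc
    · intro δ hδ hex hcl
      refine ⟨⟨δ, hδ⟩, ?_, rfl⟩
      have hsub : {c ∈ t | c.1 < δ} ⊆ t := fun c hc => hc.1
      obtain ⟨x, hx⟩ := hex
      obtain ⟨_, ⟨c₀, hc₀, rfl⟩, _, hc₀'⟩ := hcl x hx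
      refine ht.isLUB_mem hsub ⟨c₀, hc₀, hc₀'⟩ ⟨?_, ?_⟩
      · intro c hc
        exact le_of_lt hc.2
      · intro u hu
        by_contra hcon
        have h1 : u.1 < δ := not_le.1 hcon
        obtain ⟨_, ⟨c, hc, rfl⟩, h2, h3⟩ := hcl u.1 h1
        exact absurd (hu (show c ∈ {c ∈ t | c.1 < δ} from ⟨hc, h3⟩)) (not_le.2 h2)

lemma bdd_of_regular {κ : Cardinal.{0}} (hκ : κ.IsRegular) : Bdd κ.ord.ToType κ := by
  intro s hs
  have h1 : ¬ IsCofinal s := by
    intro h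
    have h2 := Order.cof_le h
    rw [Ordinal.cof_toType, hκ.cof_ord] at h2
    exact absurd hs (not_lt.2 h2)
  exact not_isCofinal_iff.1 h1

lemma small_of_regular {κ : Cardinal.{0}} (hκ : κ.IsRegular) (x : κ.ord.ToType) :
    #(Iic x) < κ := by
  have := mk_Iic_lt x (by simp) (by simpa using hκ.aleph0_le)
  simpa using this

end Pool.Agent.R634.NR
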