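import Pool.Agent.R634.NR.Space

/-!
Main argument for MP_1c9258_gt and MP_ba6bfd_gt.
-/

open Cardinal Order Set Filter Topology

namespace Pool.Agent.R634.NR

set_option linter.unusedSectionVars false
set_option linter.unusedVariables false

variable {K : Type} [LinearOrder K] [WellFoundedLT K] {S : Set K} {η : K → ℕ → K}

open Psi

/-- `f` is a continuous injection into `ℝ^Γ` with `0-1` values and finite supports -/
def FiniteSupp (X : Type) [TopologicalSpace X] : Prop :=
  ∃ (Γ : Type) (f : X → (Γ → ℝ)), Continuous f ∧ Function.Injective f ∧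
    (∀ x, (Function.support (f x)).Finite) ∧ ∀ x γ, |f x γ| ≤ 1

lemma isClopen_nb (hη : ∀ δ ∈ S, IsLadder (η δ) δ) (δ : S) (m : ℕ) :
    IsClopen ((↑) '' (nb δ m : Set (Psi S η)) : Set (OnePoint (Psi S η))) := by
  have := t2 hη
  exact ⟨OnePoint.isClosed_image_coe.2 ⟨(isCompact_nb δ m).isClosed, isCompact_nb δ m⟩,
    OnePoint.isOpen_image_coe.2 (isOpen_nb δ m)⟩

lemma isClopen_iso (hη : ∀ δ ∈ S, IsLadder (η δ) δ) (a : K) :
    IsClopen ((↑) '' ({iso a} : Set (Psi S η)) : Set (OnePoint (Psi S η))) := by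
  have := t2 hη
  exact ⟨OnePoint.isClosed_image_coe.2 ⟨isClosed_singleton, isCompact_singleton⟩,
    OnePoint.isOpen_image_coe.2 (isOpen_iso a)⟩

lemma small_closure (hη : ∀ δ ∈ S, IsLadder (η δ) δ) {β γ : K} (hβ : ∀ δ ∈ S, β < δ)
    (hD : Disj S η β γ) (A : Set (OnePoint (Psi S η)))
    (hA : ∀ x : Psi S η, (x : OnePoint (Psi S η)) ∈ A → x ∈ below γ) :
    FiniteSupp (closure A) := by
  classical
  have := t2 hη
  obtain ⟨g, -, hg⟩ := hD
  -- the closure of `A` stays below
  have hcl : ∀ x : Psi S η, (x : OnePoint (Psi S η)) ∈ closure A → x ∈ below γ := by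
    intro x hx
    by_contra hcon
    have hopen : IsOpen ((↑) '' ((below γ)ᶜ : Set (Psi S η)) : Set (OnePoint (Psi S η))) :=
      OnePoint.isOpen_image_coe.2 (isClosed_below hη γ).isOpen_compl
    obtain ⟨y, ⟨z, hz, rfl⟩, hyA⟩ := mem_closure_iff.1 hx _ hopen ⟨x, hcon, rfl⟩
    exact hz (hA z hyA)
  let F : OnePoint (Psi S η) → (K ⊕ S → ℝ) := fun z c => match c with
    | Sum.inl a => Set.indicator ((↑) '' ({iso a} : Set (Psi S η))) (fun _ => (1 : ℝ)) z
    | Sum.inr δ => if (δ : K) ≤ γ then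
        Set.indicator ((↑) '' (nb δ (g δ) : Set (Psi S η))) (fun _ => (1 : ℝ)) z else 0
  have hFl : ∀ z a, F z (Sum.inl a) =
      Set.indicator ((↑) '' ({iso a} : Set (Psi S η))) (fun _ => (1 : ℝ)) z := fun _ _ => rfl
  have hFr : ∀ z (δ : S), F z (Sum.inr δ) = if (δ : K) ≤ γ then
      Set.indicator ((↑) '' (nb δ (g δ) : Set (Psi S η))) (fun _ => (1 : ℝ)) z else 0 :=
    fun _ _ => rfl
  have hFcont : Continuous F := by
    refine continuous_pi (fun c => ?_)
    rcases c with a | δ
    · exact (isClopen_iso hη a).continuous_indicator continuous_const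
    · by_cases hδ : (δ : K) ≤ γ
      · have : (fun z => F z (Sum.inr δ)) =
            Set.indicator ((↑) '' (nb δ (g δ) : Set (Psi S η))) (fun _ => (1 : ℝ)) := by
          funext z
          rw [hFr, if_pos hδ]
        rw [this]
        exact (isClopen_nb hη δ (g δ)).continuous_indicator continuous_const
      · have : (fun z => F z (Sum.inr δ)) = fun _ => 0 := by
          funext z
          rw [hFr, if_neg hδ]
        rw [this]
        exact continuous_const
  have hmem : ∀ (s : Set (Psi S η)) (x : Psi S η),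
      (x : OnePoint (Psi S η)) ∈ ((↑) '' s : Set (OnePoint (Psi S η))) ↔ x ∈ s := by
    intro s x
    constructor
    · rintro ⟨y, hy, h⟩
      rw [← OnePoint.coe_injective h]
      exact hy
    · exact fun h => ⟨x, h, rfl⟩
  have hinf : ∀ (s : Set (Psi S η)), (OnePoint.infty : OnePoint (Psi S η)) ∉
      ((↑) '' s : Set (OnePoint (Psi S η))) := by
    rintro s ⟨y, _, h⟩
    exact OnePoint.coe_ne_infty y h
  -- values
  have hiso_l : ∀ a b : K, F ((iso a : Psi S η) : OnePoint (Psi S η)) (Sum.inl b) =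
      if a = b then 1 else 0 := by
    intro a b
    rw [hFl]
    by_cases h : a = b
    · rw [if_pos h, Set.indicator_of_mem ((hmem _ _).2 (by rw [h]; rfl))]
    · rw [if_neg h]
      rw [Set.indicator_of_notMem]
      intro hc
      have h3 := (hmem _ _).1 hc
      exact h (iso_inj h3)
  have hlad_l : ∀ (δ : S) (b : K), F ((lad δ : Psi S η) : OnePoint (Psi S η)) (Sum.inl b) = 0 := by
    intro δ b
    rw [hFl, Set.indicator_of_notMem (fun hc => iso_ne_lad b δ ((hmem _ _).1 hc).symm)]
  have hlad_r : ∀ (δ δ' : S), F ((lad δ : Psi S η) : OnePoint (Psi S η)) (Sum.inr δ') =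
      if δ = δ' ∧ (δ' : K) ≤ γ then 1 else 0 := by
    intro δ δ'
    rw [hFr]
    by_cases h1 : (δ' : K) ≤ γ
    · rw [if_pos h1]
      by_cases h : δ = δ'
      · rw [if_pos ⟨h, h1⟩, Set.indicator_of_mem ((hmem _ _).2 (lad_mem_nb_iff.2 h))]
      · rw [if_neg (fun hc => h hc.1),
          Set.indicator_of_notMem (fun hc => h (lad_mem_nb_iff.1 ((hmem _ _).1 hc)))]
    · rw [if_neg h1, if_neg (fun hc => h1 hc.2)]
  have hinf_v : ∀ c, F OnePoint.infty c = 0 := by
    rintro (b | δ)
    · rw [hFl, Set.indicator_of_notMem (hinf _)]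
    · rw [hFr]
      split_ifs
      · rw [Set.indicator_of_notMem (hinf _)]
      · rfl
  refine ⟨K ⊕ S, fun z => F z.1, hFcont.comp continuous_subtype_val, ?_, ?_, ?_⟩
  · -- injectivity
    have hne_iso : ∀ (a : K) (z : OnePoint (Psi S η)),
        F ((iso a : Psi S η) : OnePoint (Psi S η)) = F z → ((iso a : Psi S η) : OnePoint (Psi S η)) = z := by
      intro a z h
      have h1 := congrFun h (Sum.inl a)
      rw [hiso_l, if_pos rfl] at h1
      induction z using OnePoint.rec with
      | infty =>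
        have h2 := hinf_v (Sum.inl a)
        rw [h2] at h1
        exact absurd h1 one_ne_zero
      | coe z =>
        rcases Psi.cases z with ⟨b, rfl⟩ | ⟨δ, rfl⟩
        · rw [hiso_l] at h1
          by_cases hba : b = a
          · rw [hba]
          · rw [if_neg hba] at h1; exact absurd h1 one_ne_zero
        · rw [hlad_l] at h1; exact absurd h1 one_ne_zero
    have hne_lad : ∀ (δ : S) (z : OnePoint (Psi S η)), (δ : K) ≤ γ →
        (∀ a : K, z ≠ ((iso a : Psi S η) : OnePoint (Psi S η))) →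
        F ((lad δ : Psi S η) : OnePoint (Psi S η)) = F z → ((lad δ : Psi S η) : OnePoint (Psi S η)) = z := by
      intro δ z hδ hz h
      have h1 := congrFun h (Sum.inr δ)
      rw [hlad_r, if_pos ⟨rfl, hδ⟩] at h1
      induction z using OnePoint.rec with
      | infty =>
        have h2 := hinf_v (Sum.inr δ)
        rw [h2] at h1
        exact absurd h1 one_ne_zero
      | coe z =>
        rcases Psi.cases z with ⟨b, rfl⟩ | ⟨δ', rfl⟩
        · exact absurd rfl (hz b)
        · rw [hlad_r] at h1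
          by_cases hba : δ' = δ
          · rw [hba]
          · rw [if_neg (fun hc => hba hc.1)] at h1; exact absurd h1 one_ne_zero
    intro z w hzw
    apply Subtype.ext
    have hzw' : F z.1 = F w.1 := hzw
    obtain ⟨z, hz⟩ := z
    obtain ⟨w, hw⟩ := w
    simp only at hzw' ⊢
    by_cases hz1 : ∃ a : K, z = ((iso a : Psi S η) : OnePoint (Psi S η))
    · obtain ⟨a, rfl⟩ := hz1
      exact hne_iso a w hzw'
    · by_cases hw1 : ∃ a : K, w = ((iso a : Psi S η) : OnePoint (Psi S η))
      · obtain ⟨a, rfl⟩ := hw1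
        exact (hne_iso a z hzw'.symm).symm
      · push Not at hz1 hw1
        by_cases hz2 : ∃ δ : S, z = ((lad δ : Psi S η) : OnePoint (Psi S η))
        · obtain ⟨δ, rfl⟩ := hz2
          exact hne_lad δ w (lad_mem_below.1 (hcl _ hz)) hw1 hzw'
        · by_cases hw2 : ∃ δ : S, w = ((lad δ : Psi S η) : OnePoint (Psi S η))
          · obtain ⟨δ, rfl⟩ := hw2
            exact (hne_lad δ z (lad_mem_below.1 (hcl _ hw)) hz1 hzw'.symm).symm
          · push Not at hz2 hw2
            have hall : ∀ y : OnePoint (Psi S η),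
                (∀ a : K, y ≠ ((iso a : Psi S η) : OnePoint (Psi S η))) →
                (∀ δ : S, y ≠ ((lad δ : Psi S η) : OnePoint (Psi S η))) → y = OnePoint.infty := by
              intro y h1 h2
              induction y using OnePoint.rec with
              | infty => rfl
              | coe y =>
                rcases Psi.cases y with ⟨b, rfl⟩ | ⟨δ', rfl⟩
                · exact absurd rfl (h1 b)
                · exact absurd rfl (h2 δ')
            rw [hall z hz1 hz2, hall w hw1 hw2]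
  · -- finite supports
    rintro ⟨z, hz⟩
    simp only
    induction z using OnePoint.rec with
    | infty =>
      refine (Set.finite_empty).subset (fun c hc => ?_)
      exact absurd (hinf_v c) hc
    | coe z =>
      rcases Psi.cases z with ⟨a, rfl⟩ | ⟨δ, rfl⟩
      · have hsub : Function.support (F ((iso a : Psi S η) : OnePoint (Psi S η))) ⊆
            {Sum.inl a} ∪ Sum.inr '' {δ : S | (δ : K) ≤ γ ∧ ∃ n ≥ g δ, a = η δ n} := by
          rintro (b | δ) hc
          · rw [Function.mem_support, hiso_l] at hc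
            left
            by_cases hab : a = b
            · rw [hab]; rfl
            · exact absurd (if_neg hab) hc
          · right
            refine ⟨δ, ?_, rfl⟩
            rw [Function.mem_support, hFr] at hc
            by_cases hδ : (δ : K) ≤ γ
            · rw [if_pos hδ] at hc
              refine ⟨hδ, ?_⟩
              by_contra hcon
              apply hc
              rw [Set.indicator_of_notMem]
              intro hm
              exact hcon (iso_mem_nb_iff.1 ((hmem _ _).1 hm))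
            · exact absurd (if_neg hδ) hc
        refine Set.Finite.subset ((finite_singleton _).union (Set.Finite.image _ ?_)) hsub
        refine Set.Subsingleton.finite (fun δ hδ δ' hδ' => ?_)
        by_contra hne
        obtain ⟨h1, n, hn, hna⟩ := hδ
        obtain ⟨h2, n', hn', hna'⟩ := hδ'
        exact hg δ δ.2 δ' δ'.2 (hβ δ δ.2) h1 (hβ δ' δ'.2) h2 (fun h => hne (Subtype.ext h))
          n hn n' hn' (hna.symm.trans hna')
      · refine (finite_singleton (Sum.inr δ)).subset (fun c hc => ?_)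
        rcases c with b | δ'
        · exact absurd (hlad_l δ b) hc
        · rw [Function.mem_support, hlad_r] at hc
          by_cases hδ : δ = δ'
          · rw [hδ]; rfl
          · exact absurd (if_neg (fun h => hδ h.1)) hc
  · -- bounded
    rintro ⟨z, hz⟩ c
    simp only
    rcases c with b | δ
    · rw [hFl]
      by_cases h : z ∈ ((↑) '' ({iso b} : Set (Psi S η)) : Set (OnePoint (Psi S η)))
      · rw [Set.indicator_of_mem h]; norm_num
      · rw [Set.indicator_of_notMem h]; norm_num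
    · rw [hFr]
      split_ifs
      · by_cases h : z ∈ ((↑) '' (nb δ (g δ) : Set (Psi S η)) : Set (OnePoint (Psi S η)))
        · rw [Set.indicator_of_mem h]; norm_num
        · rw [Set.indicator_of_notMem h]; norm_num
      · norm_num

/-- the one-point compactification of the ladder system space over a stationary set has no
embedding with countable supports; it suffices that `f` is a continuous injection -/
lemma not_corson {κ : Cardinal.{0}} (hκ : ℵ₀ < κ) (hb : Bdd K κ)
    (hsmall : ∀ x : K, #(Iic x) < κ) (hη : ∀ δ ∈ S, IsLadder (η δ) δ) (hS : IsStat S)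
    (hS0 : ∀ δ ∈ S, ∃ x, x < δ) {Γ : Type} (f : OnePoint (Psi S η) → (Γ → ℝ))
    (hf : Continuous f) (hinj : Function.Injective f)
    (hsupp : ∀ x, (Function.support (f x)).Countable) : False := by
  classical
  have := t2 hη
  have hlim : ∀ δ : S, Tendsto (fun n => (iso (η δ n) : Psi S η)) atTop (𝓝 (lad δ)) := by
    intro δ
    rw [tendsto_nhds]
    intro U hU hδ
    exact isOpen_iff.1 hU δ hδ
  have h1 : ∀ δ : K, ∃ (c : Γ) (N : ℕ) (b : K), ∀ hδ : δ ∈ S, b < δ ∧
      1 / ((N : ℝ) + 1) < |f ((lad ⟨δ, hδ⟩ : Psi S η) : OnePoint (Psi S η)) c - f OnePoint.infty c| ∧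
      f ((iso b : Psi S η) : OnePoint (Psi S η)) c ≠ f OnePoint.infty c := by
    intro δ
    by_cases hδ : δ ∈ S
    · have hne : f ((lad ⟨δ, hδ⟩ : Psi S η) : OnePoint (Psi S η)) ≠ f OnePoint.infty :=
        fun h => OnePoint.coe_ne_infty _ (hinj h)
      obtain ⟨c, hc⟩ := Function.ne_iff.1 hne
      have hpos : 0 < |f ((lad ⟨δ, hδ⟩ : Psi S η) : OnePoint (Psi S η)) c - f OnePoint.infty c| :=
        abs_pos.2 (sub_ne_zero.2 hc)
      obtain ⟨N, hN⟩ := exists_nat_one_div_lt hpos
      have ht : Tendsto (fun n => f ((iso (η δ n) : Psi S η) : OnePoint (Psi S η)) c) atTop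
          (𝓝 (f ((lad ⟨δ, hδ⟩ : Psi S η) : OnePoint (Psi S η)) c)) :=
        (((continuous_apply c).comp hf).comp OnePoint.continuous_coe).continuousAt.tendsto.comp
          (hlim ⟨δ, hδ⟩)
      obtain ⟨n, hn⟩ := (ht.eventually (isOpen_ne.mem_nhds hc)).exists
      exact ⟨c, N, η δ n, fun _ => ⟨(hη δ hδ).2.1 n, hN, hn⟩⟩
    · have hΓ : Nonempty Γ := by
        obtain ⟨δ', hδ', _⟩ := hS (fun x => x)
        have hne : f ((lad ⟨δ', hδ'⟩ : Psi S η) : OnePoint (Psi S η)) ≠ f OnePoint.infty :=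
          fun h => OnePoint.coe_ne_infty _ (hinj h)
        obtain ⟨c, hc⟩ := Function.ne_iff.1 hne
        exact ⟨c⟩
      exact ⟨hΓ.some, 0, δ, fun h => absurd h hδ⟩
  choose c N b hcNb using h1
  obtain ⟨β, hβ⟩ := hS.fodor hκ hb hsmall b (fun δ hδ => (hcNb δ hδ).1)
  obtain ⟨N₀, hN₀⟩ := hβ.countable hκ hb N
  -- the countable set of coordinates
  set Γ₀ : Set Γ := Function.support (f ((iso β : Psi S η) : OnePoint (Psi S η))) ∪
    Function.support (f OnePoint.infty) with hΓ₀
  have hΓ₀c : Γ₀.Countable := (hsupp _).union (hsupp _)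
  have hcmem : ∀ δ ∈ S, b δ = β → c δ ∈ Γ₀ := by
    intro δ hδ hbδ
    obtain ⟨-, -, h3⟩ := hcNb δ hδ
    rw [hbδ] at h3
    by_contra hcon
    rw [hΓ₀, mem_union, not_or, Function.notMem_support, Function.notMem_support] at hcon
    exact h3 (hcon.1.trans hcon.2.symm)
  obtain ⟨e, he⟩ := Set.countable_iff_exists_injOn.1 hΓ₀c
  obtain ⟨k, hk⟩ := hN₀.countable hκ hb (fun δ => e (c δ))
  -- all coordinates are equal
  set S₃ : Set K := {δ ∈ {δ ∈ {δ ∈ S | b δ = β} | N δ = N₀} | e (c δ) = k} with hS₃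
  obtain ⟨δ₀, hδ₀, -⟩ := hk (fun x => x)
  have hceq : ∀ δ ∈ S₃, c δ = c δ₀ := by
    intro δ hδ
    exact he (hcmem δ hδ.1.1.1 hδ.1.1.2) (hcmem δ₀ hδ₀.1.1.1 hδ₀.1.1.2) (hδ.2.trans hδ₀.2.symm)
  -- the compact set
  set C : Set (OnePoint (Psi S η)) :=
    {x | 1 / ((N₀ : ℝ) + 1) ≤ |f x (c δ₀) - f OnePoint.infty (c δ₀)|} with hC
  have hCcl : IsClosed C :=
    isClosed_le continuous_const (((continuous_apply (c δ₀)).comp hf).sub continuous_const).abs
  have hCinf : OnePoint.infty ∉ C := by
    intro h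
    rw [hC, mem_ofPred_eq, sub_self, abs_zero] at h
    have : (0 : ℝ) < 1 / ((N₀ : ℝ) + 1) := by positivity
    linarith
  have hCc : IsCompact ((↑) ⁻¹' C : Set (Psi S η)) :=
    ((OnePoint.isClosed_iff_of_notMem hCinf).1 hCcl).2
  have hfin := finite_lad_of_isCompact _ hCc
  have hsub : ∀ δ (hδ : δ ∈ S₃), (⟨δ, hδ.1.1.1⟩ : S) ∈
      {δ : S | lad δ ∈ ((↑) ⁻¹' C : Set (Psi S η))} := by
    intro δ hδ
    have hδS : δ ∈ S := hδ.1.1.1
    have hN2 : N δ = N₀ := hδ.1.2
    have hc2 := hceq δ hδ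
    have h2 := (hcNb δ hδS).2.1
    rw [hN2, hc2] at h2
    exact h2.le
  have hfin3 : S₃.Finite := by
    refine (hfin.image (Subtype.val)).subset (fun δ hδ => ⟨⟨δ, hδ.1.1.1⟩, hsub δ hδ, rfl⟩)
  obtain ⟨a, ha⟩ := hb S₃ (lt_of_lt_of_le (Cardinal.lt_aleph0_iff_set_finite.2 hfin3) hκ.le)
  obtain ⟨δ, hδ, haδ⟩ := hk.unbounded hκ hb (fun δ hδ => hS0 δ hδ.1.1.1) a
  exact absurd (ha δ hδ) (not_lt.2 haδ.le)

/-- the counterexample -/
theorem main {κ : Cardinal.{0}} (hκ : ℵ₀ < κ) (hNR : HasNonReflecting κ) :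
    ∃ (X : Type) (_ : TopologicalSpace X) (_ : CompactSpace X) (_ : T2Space X),
      (∀ A : Set X, #A < κ → FiniteSupp (closure A)) ∧
      ∀ (Γ : Type) (f : X → (Γ → ℝ)), Continuous f → Function.Injective f →
        ¬ ∀ x, (Function.support (f x)).Countable := by
  classical
  obtain ⟨hreg, S, hstat, hcof, hnr⟩ := hNR
  have hb := bdd_of_regular hreg
  have hsmall := small_of_regular hreg
  have hS := IsStat.of_isStationary hκ hb hsmall hstat
  have hlad : ∀ δ : κ.ord.ToType, ∃ η : ℕ → κ.ord.ToType, δ ∈ S → IsLadder η δ := by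
    intro δ
    by_cases hδ : δ ∈ S
    · obtain ⟨η, hη⟩ := exists_ladder (hcof δ hδ)
      exact ⟨η, fun _ => hη⟩
    · exact ⟨fun _ => δ, fun h => absurd h hδ⟩
  choose η hη using hlad
  have := t2 hη
  have hS0 : ∀ δ ∈ S, ∃ x, x < δ := fun δ hδ => ⟨η δ 0, (hη δ hδ).2.1 0⟩
  -- the bottom element
  obtain ⟨δ₁, -, -⟩ := hS (fun x => x)
  have hne : (univ : Set κ.ord.ToType).Nonempty := ⟨δ₁, mem_univ _⟩
  set β := wellFounded_lt.min (univ : Set κ.ord.ToType) hne with hβdef
  have hβle : ∀ x : κ.ord.ToType, β ≤ x := fun x =>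
    not_lt.1 (wellFounded_lt.not_lt_min _ (mem_univ x))
  have hβ : ∀ δ ∈ S, β < δ := by
    intro δ hδ
    obtain ⟨x, hx⟩ := hS0 δ hδ
    exact lt_of_le_of_lt (hβle x) hx
  have hclub : ∀ γ : κ.ord.ToType, (∃ x, x < γ) → (∀ x < γ, ∃ y, x < y ∧ y < γ) → HasClub S γ :=
    hasClub_of hcof hnr
  refine ⟨OnePoint (Psi S η), inferInstance, inferInstance, inferInstance, ?_, ?_⟩
  · intro A hA
    -- find a bound
    set B : Set κ.ord.ToType := {a | ((iso a : Psi S η) : OnePoint (Psi S η)) ∈ A} ∪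
      {a | ∃ h : a ∈ S, ((lad ⟨a, h⟩ : Psi S η) : OnePoint (Psi S η)) ∈ A} ∪ {β} with hB
    have hBc : #B < κ := by
      have h1 : #{a | ((iso a : Psi S η) : OnePoint (Psi S η)) ∈ A} ≤ #A := by
        refine mk_le_of_injective (f := fun a => ⟨_, a.2⟩) (fun a b hab => ?_)
        simp only [Subtype.mk.injEq] at hab
        exact Subtype.ext (iso_inj (OnePoint.coe_injective hab))
      have h2 : #{a | ∃ h : a ∈ S, ((lad ⟨a, h⟩ : Psi S η) : OnePoint (Psi S η)) ∈ A} ≤ #A := by
        refine mk_le_of_injective (f := fun a => ⟨_, a.2.choose_spec⟩) (fun a b hab => ?_)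
        simp only [Subtype.mk.injEq] at hab
        have h3 := lad_inj (OnePoint.coe_injective hab)
        simp only [Subtype.mk.injEq] at h3
        exact Subtype.ext h3
      refine lt_of_le_of_lt (mk_union_le _ _) (add_lt_of_lt hκ.le
        (lt_of_le_of_lt (mk_union_le _ _) (add_lt_of_lt hκ.le (lt_of_le_of_lt h1 hA)
          (lt_of_le_of_lt h2 hA))) ?_)
      rw [mk_singleton]
      exact one_lt_aleph0.trans hκ
    obtain ⟨γ, hγ⟩ := hb B hBc
    have hβγ : β < γ := hγ β (Or.inr rfl)
    refine small_closure hη hβ (disj_all hη hclub γ β hβγ) A (fun x hx => ?_)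
    rcases Psi.cases x with ⟨a, rfl⟩ | ⟨δ, rfl⟩
    · exact iso_mem_below.2 (hγ a (Or.inl (Or.inl hx)))
    · exact lad_mem_below.2 (hγ δ (Or.inl (Or.inr ⟨δ.2, hx⟩))).le
  · intro Γ f hf hinj hsupp
    exact not_corson hκ hb hsmall hη hS hS0 f hf hinj hsupp

end Pool.Agent.R634.NR
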