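import Pool.Agent.R634.NR.Hyp

/-!
The ladder system space and its one-point compactification, for MP_1c9258_gt and MP_ba6bfd_gt.
-/

open Cardinal Order Set Filter Topology

namespace Pool.Agent.R634.NR

set_option linter.unusedSectionVars false
set_option linter.unusedVariables false

variable {K : Type} [LinearOrder K] [WellFoundedLT K]

/-- the points of the ladder system space: isolated points `inl a` and ladder points `inr δ` -/
def Psi (S : Set K) (_η : K → ℕ → K) : Type := K ⊕ S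

namespace Psi

variable {S : Set K} {η : K → ℕ → K}

/-- isolated points -/
def iso (a : K) : Psi S η := Sum.inl a
/-- ladder points -/
def lad (δ : S) : Psi S η := Sum.inr δ

instance : TopologicalSpace (Psi S η) where
  IsOpen U := ∀ δ : S, lad δ ∈ U → ∀ᶠ n in atTop, (iso (η δ n) : Psi S η) ∈ U
  isOpen_univ := fun _ _ => Eventually.of_forall fun _ => mem_univ _
  isOpen_inter := fun U V hU hV δ hδ => (hU δ hδ.1).and (hV δ hδ.2)
  isOpen_sUnion := fun 𝒰 h δ hδ => by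
    obtain ⟨U, hU, hδU⟩ := hδ
    exact (h U hU δ hδU).mono fun n hn => ⟨U, hU, hn⟩

lemma isOpen_iff {U : Set (Psi S η)} :
    IsOpen U ↔ ∀ δ : S, lad δ ∈ U → ∀ᶠ n in atTop, (iso (η δ n) : Psi S η) ∈ U := Iff.rfl

lemma iso_ne_lad (a : K) (δ : S) : (iso a : Psi S η) ≠ lad δ := Sum.inl_ne_inr

lemma iso_inj {a b : K} (h : (iso a : Psi S η) = iso b) : a = b := Sum.inl_injective h

lemma lad_inj {a b : S} (h : (lad a : Psi S η) = lad b) : a = b := Sum.inr_injective h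

lemma cases (x : Psi S η) : (∃ a, x = iso a) ∨ ∃ δ, x = lad δ := by
  rcases x with a | δ
  · exact Or.inl ⟨a, rfl⟩
  · exact Or.inr ⟨δ, rfl⟩

lemma isOpen_iso (a : K) : IsOpen ({iso a} : Set (Psi S η)) := by
  rw [isOpen_iff]
  intro δ hδ
  exact absurd hδ.symm (iso_ne_lad a δ)

/-- basic neighbourhoods of ladder points -/
def nb (δ : S) (m : ℕ) : Set (Psi S η) := {lad δ} ∪ {x | ∃ n ≥ m, x = iso (η δ n)}

lemma lad_mem_nb (δ : S) (m : ℕ) : (lad δ : Psi S η) ∈ nb δ m := Or.inl rfl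

lemma lad_mem_nb_iff {δ δ' : S} {m : ℕ} : (lad δ' : Psi S η) ∈ nb δ m ↔ δ' = δ := by
  constructor
  · rintro (h | ⟨n, _, h⟩)
    · exact lad_inj h
    · exact absurd h.symm (iso_ne_lad _ _)
  · rintro rfl
    exact lad_mem_nb _ _

lemma iso_mem_nb_iff {δ : S} {m : ℕ} {a : K} :
    (iso a : Psi S η) ∈ nb δ m ↔ ∃ n ≥ m, a = η δ n := by
  constructor
  · rintro (h | ⟨n, hn, h⟩)
    · exact absurd h (iso_ne_lad _ _)
    · exact ⟨n, hn, iso_inj h⟩
  · rintro ⟨n, hn, rfl⟩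
    exact Or.inr ⟨n, hn, rfl⟩

lemma isOpen_nb (δ : S) (m : ℕ) : IsOpen (nb δ m : Set (Psi S η)) := by
  rw [isOpen_iff]
  intro δ' hδ'
  rw [lad_mem_nb_iff] at hδ'
  subst hδ'
  filter_upwards [eventually_ge_atTop m] with n hn
  exact iso_mem_nb_iff.2 ⟨n, hn, rfl⟩

lemma isCompact_nb (δ : S) (m : ℕ) : IsCompact (nb δ m : Set (Psi S η)) := by
  classical
  rw [isCompact_iff_finite_subcover]
  intro ι U hU hcov
  obtain ⟨i₀, hi₀⟩ := mem_iUnion.1 (hcov (lad_mem_nb δ m))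
  obtain ⟨k, hk⟩ := eventually_atTop.1 (isOpen_iff.1 (hU i₀) δ hi₀)
  have h1 : ∀ n : ℕ, ∃ i, m ≤ n → (iso (η δ n) : Psi S η) ∈ U i := by
    intro n
    by_cases hn : m ≤ n
    · obtain ⟨i, hi⟩ := mem_iUnion.1 (hcov (iso_mem_nb_iff.2 ⟨n, hn, rfl⟩))
      exact ⟨i, fun _ => hi⟩
    · exact ⟨i₀, fun h => absurd h hn⟩
  choose i hi using h1
  refine ⟨insert i₀ ((Finset.range k).image i), ?_⟩
  rintro x (hx | ⟨n, hn, rfl⟩)
  · rw [hx]
    exact mem_iUnion₂.2 ⟨i₀, Finset.mem_insert_self _ _, hi₀⟩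
  · by_cases hnk : k ≤ n
    · exact mem_iUnion₂.2 ⟨i₀, Finset.mem_insert_self _ _, hk n hnk⟩
    · exact mem_iUnion₂.2 ⟨i n, Finset.mem_insert_of_mem
        (Finset.mem_image_of_mem _ (Finset.mem_range.2 (not_le.1 hnk))), hi n hn⟩

instance : WeaklyLocallyCompactSpace (Psi S η) where
  exists_compact_mem_nhds x := by
    rcases cases x with ⟨a, rfl⟩ | ⟨δ, rfl⟩
    · exact ⟨{iso a}, isCompact_singleton, (isOpen_iso a).mem_nhds rfl⟩
    · exact ⟨nb δ 0, isCompact_nb δ 0, (isOpen_nb δ 0).mem_nhds (lad_mem_nb δ 0)⟩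

/-- initial parts -/
def below (γ : K) : Set (Psi S η) := {x | (∃ a, x = iso a ∧ a < γ) ∨ ∃ δ : S, x = lad δ ∧ (δ : K) ≤ γ}

lemma iso_mem_below {γ a : K} : (iso a : Psi S η) ∈ below γ ↔ a < γ := by
  constructor
  · rintro (⟨b, h, hb⟩ | ⟨δ, h, _⟩)
    · rw [iso_inj h]; exact hb
    · exact absurd h (iso_ne_lad _ _)
  · exact fun h => Or.inl ⟨a, rfl, h⟩

lemma lad_mem_below {γ : K} {δ : S} : (lad δ : Psi S η) ∈ below γ ↔ (δ : K) ≤ γ := by
  constructor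
  · rintro (⟨b, h, hb⟩ | ⟨δ', h, h'⟩)
    · exact absurd h.symm (iso_ne_lad _ _)
    · rw [lad_inj h]; exact h'
  · exact fun h => Or.inr ⟨δ, rfl, h⟩

lemma isOpen_below (hη : ∀ δ ∈ S, IsLadder (η δ) δ) (γ : K) :
    IsOpen (below γ : Set (Psi S η)) := by
  rw [isOpen_iff]
  intro δ hδ
  rw [lad_mem_below] at hδ
  exact Eventually.of_forall fun n => iso_mem_below.2 (((hη δ δ.2).2.1 n).trans_le hδ)

lemma isClosed_below (hη : ∀ δ ∈ S, IsLadder (η δ) δ) (γ : K) :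
    IsClosed (below γ : Set (Psi S η)) := by
  rw [← isOpen_compl_iff, isOpen_iff]
  intro δ hδ
  rw [mem_compl_iff, lad_mem_below, not_le] at hδ
  obtain ⟨m, hm⟩ := (hη δ δ.2).exists_ge hδ
  filter_upwards [eventually_ge_atTop m] with n hn
  rw [mem_compl_iff, iso_mem_below, not_lt]
  exact (hm n hn).le

lemma t2 (hη : ∀ δ ∈ S, IsLadder (η δ) δ) : T2Space (Psi S η) := by
  have key : ∀ (a : K) (y : Psi S η), iso a ≠ y →
      ∃ u v : Set (Psi S η), IsOpen u ∧ IsOpen v ∧ iso a ∈ u ∧ y ∈ v ∧ Disjoint u v := by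
    intro a y hne
    refine ⟨{iso a}, {iso a}ᶜ, isOpen_iso a, ?_, rfl, hne.symm, disjoint_compl_right⟩
    rw [isOpen_iff]
    intro δ _
    have h1 : {n | η δ n = a}.Finite := by
      refine Set.Subsingleton.finite (fun m hm n hn => ?_)
      exact (hη δ δ.2).1.injective ((show η δ m = a from hm).trans (show η δ n = a from hn).symm)
    have h2 : ∀ᶠ n in atTop, n ∉ {n | η δ n = a} := by
      rw [← Nat.cofinite_eq_atTop]
      exact h1.compl_mem_cofinite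
    filter_upwards [h2] with n hn h
    exact hn (iso_inj h)
  have key2 : ∀ (δ δ' : S), (δ : K) < δ' →
      ∃ u v : Set (Psi S η), IsOpen u ∧ IsOpen v ∧ lad δ ∈ u ∧ lad δ' ∈ v ∧ Disjoint u v := by
    intro δ δ' h
    exact ⟨below δ, (below δ)ᶜ, isOpen_below hη _, (isClosed_below hη _).isOpen_compl,
      lad_mem_below.2 le_rfl, fun hc => absurd (lad_mem_below.1 hc) (not_le.2 h),
      disjoint_compl_right⟩
  refine ⟨fun x y hne => ?_⟩
  rcases cases x with ⟨a, rfl⟩ | ⟨δ, rfl⟩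
  · exact key a y hne
  · rcases cases y with ⟨b, rfl⟩ | ⟨δ', rfl⟩
    · obtain ⟨u, v, h1, h2, h3, h4, h5⟩ := key b _ hne.symm
      exact ⟨v, u, h2, h1, h4, h3, h5.symm⟩
    · have hne' : (δ : K) ≠ δ' := fun h => hne (by rw [Subtype.ext h])
      rcases lt_or_gt_of_ne hne' with h | h
      · exact key2 δ δ' h
      · obtain ⟨u, v, h1, h2, h3, h4, h5⟩ := key2 δ' δ h
        exact ⟨v, u, h2, h1, h4, h3, h5.symm⟩

/-- compact sets contain finitely many ladder points -/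
lemma finite_lad_of_isCompact (C : Set (Psi S η)) (hC : IsCompact C) :
    {δ : S | lad δ ∈ C}.Finite := by
  classical
  have hex : ∀ x : Psi S η, ∃ U : Set (Psi S η), IsOpen U ∧ x ∈ U ∧
      ∀ δ δ' : S, lad δ ∈ U → lad δ' ∈ U → δ = δ' := by
    intro x
    rcases cases x with ⟨a, rfl⟩ | ⟨δ, rfl⟩
    · exact ⟨{iso a}, isOpen_iso a, rfl, fun δ _ h _ => absurd h.symm (iso_ne_lad _ _)⟩
    · refine ⟨nb δ 0, isOpen_nb δ 0, lad_mem_nb δ 0, fun δ' δ'' h h' => ?_⟩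
      rw [lad_mem_nb_iff.1 h, lad_mem_nb_iff.1 h']
  choose U hU hxU hUu using hex
  obtain ⟨t, ht⟩ := hC.elim_finite_subcover U hU (fun x _ => mem_iUnion.2 ⟨x, hxU x⟩)
  have h1 : {δ : S | lad δ ∈ C} ⊆ ⋃ x ∈ t, {δ : S | lad δ ∈ U x} := by
    intro δ hδ
    obtain ⟨x, hx, hδx⟩ := mem_iUnion₂.1 (ht hδ)
    exact mem_iUnion₂.2 ⟨x, hx, hδx⟩
  refine (t.finite_toSet.biUnion (fun x _ => ?_)).subset h1
  exact Set.Subsingleton.finite (fun δ hδ δ' hδ' => hUu x δ δ' hδ hδ')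

end Psi

end Pool.Agent.R634.NR
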